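import Pool.Agent.E8helper64.GC.Main
import Pool.Agent.E8helper30.GC.Ind

/-!
# MP_6429ad_ag: ideals of secant varieties of graph curves, the negative answer to Q1

For every algebraically closed field `K` (of any characteristic) there is a graph with `11` vertices
and `12` edges (so `g = 2`, `d - g = 9`) satisfying all the conditions, with a labelling, for which the
ideal of the secant variety `Σ_3(C_G)` in `P^9` is not generated by products of linear forms.

The graph is the theta graph with three paths of length `4`, so that `d = 2 g + 2 k + 1`.

The pieces of the proof were written by helper30, helper40, helper52, helper64, helper71, helper86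
and helper87 (files `Pool/Agent/E8helper*/GC/`).
-/

set_option autoImplicit false

namespace Pool.Agent.Results.MP_6429ad_ag.NotProductsH64

open MvPolynomial Filter Pool.Agent.E8helper64.GC

universe u

/-- For every algebraically closed field `K` there are a graph `G` with `11` vertices and `12` edges
satisfying the conditions of the problem and a labelling of it with the indices `0, …, 9`, such that
the ideal of `Σ_3(C_G) ⊂ P^9` has no generating set consisting of products of linear forms. -/
theorem result (K : Type u) [Field K] [IsAlgClosed K] :
    ∃ (G : SimpleGraph (Fin 11)) (lab : Sym2 (Fin 11) → Lb 10),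
      GraphOK G ∧ G.edgeSet.ncard = 12 ∧ Labelling G lab ∧
        ¬ GenByProds (vI (Sig (curve K G lab) 3)) := by
  exact ⟨Gt, labt, E8helper71.GC.t_GRAPH.{u}.1, E8helper71.GC.t_GRAPH.{u}.2.2.1,
    E8helper71.GC.t_GRAPH.{u}.2.1, main E8helper30.GC.t_IND K⟩

end Pool.Agent.Results.MP_6429ad_ag.NotProductsH64
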